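import Pool.Agent.S821.SplitW
import Pool.Agent.Results.MP_c50dba_nt.GrowingDegrees

/-!
# `p`-adic logarithms of the large coprime factors of almost all integers: no relation of growing degree

Let `w_1, w_2, …` be arbitrary `p`-adic numbers (elements of a normed field over `ℚ_p` with an Iwasawa logarithm). For almost
all integers `m` the following holds for ALL `k`-tuples of pairwise coprime large divisors `t_1, …, t_k` of `m` (for example the
large prime factors of `m`): there is no nontrivial polynomial relation between `w_1, …, w_q` and `log_p t_1, …, log_p t_k`, of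
degree at most `δ` over any number field of degree at most `δ`, whatever the heights of its coefficients are, where
`δ + 2 = (log t) ^ (1 / C)`, `t = min t_i`, and `C` depends only on `k` and `q`. Large means `t_i ≥ ψ(m)`, where the function `ψ`
tends to infinity as slowly as we like, and `k`, `q` and the prime `p` may be any numbers up to a function `K(m)` which tends to
infinity. More precisely the number of the exceptions `m ≤ N`, for divisors `t_i ≥ y` and the degree `δ`, is at most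
`C p (δ + 2)^C y^(-1/(δ + 2)^C) N`, uniformly in `p`, `w`, `δ`, `y`, `N`; the same holds for the prime factors between `y` and
`N^(1/k)` of the values of any polynomial.

The starting theorems (`GrowingDegrees`, `AlmostAllTuples`, `AlmostAllTuplesRate`) bound the number of the related tuples in
cubes. This does not suffice here: the factors of an integer are of very different sizes, and the bound `C T^(k - c)` does not
exclude that all the pairs `(t_1, t_2)` with `t_1 ≤ t_2^(1 - c)` are related.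

Proof. The factors are ordered by size; a related tuple has a first place where `log_p t_j` is related to the smaller
`log_p t_i` and `w`. The number of such `t_j ≤ X` is at most `C p X^(1 - 1/(δ + 2)^C)` uniformly in the smaller ones (starting
library `Pool.Agent.R351.GD`), and the sum of `1 / (t_j ⋯ t_k)` over these minimal tuples is at most `C p (δ + 2)^C y^(-c)`
(`Pool.Agent.S821.Split`). The exceptions are summed over all degrees.
-/

set_option autoImplicit false

open Filter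

namespace Pool.Agent.Results.MP_c50dba_nt.CoprimeFactors

open Module
open Pool.Agent.N826.IT.Orb (AlmostAll)
open Pool.Agent.S821.Factors (Law)
open Pool.Agent.Results.MP_c50dba_nt.GrowingDegrees (IsIwasawaLog HasRelation)

/-- the elements of `Nat.Primes` are primes -/
instance fact (p : Nat.Primes) : Fact (p : ℕ).Prime := ⟨p.2⟩

/-- the law, polynomial in the degree -/
theorem law_padic (k q : ℕ) : ∃ C : ℕ, 1 ≤ C ∧
    ∀ (p : ℕ) [Fact p.Prime] (A : Type) [NormedField A] [NormedAlgebra ℚ_[p] A] [CharZero A] (L : A → A),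
    IsIwasawaLog p A L → ∀ (δ : ℕ) (w : Fin q → A),
      Law k (fun t => HasRelation δ w (fun i => L ((t i : ℕ) : A))) (1 / ((δ : ℝ) + 2) ^ C)
        (C * p * ((δ : ℝ) + 2) ^ C) := by
  classical
  obtain ⟨E, ⟨c, hc⟩, hE⟩ := Pool.Agent.R351.GD.pcount (k + 1) (q + k)
  obtain ⟨C', hC'1, h⟩ := Pool.Agent.S821.Split.Dec.law_pow k (c + 2) (16 * (q + k + 2))
  refine ⟨C', hC'1, fun p _ A _ _ _ L hL δ w => ?_⟩
  have hδ : (1 : ℝ) ≤ (δ : ℝ) + 2 := by linarith [(Nat.cast_nonneg δ : (0 : ℝ) ≤ δ)]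
  have hEp : (E δ : ℝ) + 2 ≤ ((δ : ℝ) + 2) ^ (c + 2) := by
    have h4 : E δ + 2 ≤ (δ + 2) ^ (c + 2) := by
      have h41 := hc δ
      have h42 : (δ + 2) ^ c ≤ (δ + 2) ^ (c + 1) := Nat.pow_le_pow_right (by omega) (by omega)
      have h51 : (δ + 2) ^ 1 ≤ (δ + 2) ^ (c + 1) := Nat.pow_le_pow_right (by omega) (by omega)
      have h52 : (δ + 2) ^ (c + 2) = (δ + 2) ^ (c + 1) * (δ + 2) := by rw [← pow_succ]
      have h53 : (δ + 2) ^ (c + 1) * 2 ≤ (δ + 2) ^ (c + 1) * (δ + 2) := Nat.mul_le_mul_left _ (by omega)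
      rw [pow_one] at h51
      omega
    exact_mod_cast h4
  have hE0 : (0 : ℝ) < (E δ : ℝ) + 2 := by positivity
  have hdec := Pool.Agent.S821.SplitW.dec_bad (fun n : ℕ => L (n : A)) δ (q + k) ((k + 1) * δ)
    (c := 1 / ((δ : ℝ) + 2) ^ (c + 2)) (C := ((16 * (q + k + 2) : ℕ) : ℝ) * p) (fun w' X hX => by
      have h1 := hE δ p A L ⟨hL.1, hL.2.1, hL.2.2⟩ w' X hX
      have hX1 : (1 : ℝ) ≤ X := by exact_mod_cast hX
      have h2 : ({n : ℕ | 1 ≤ n ∧ n ≤ X ∧ n ∈ {n : ℕ | Pool.Agent.Y916.Om.BadW δ δ ((k + 1) * δ) w'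
          (fun _ : Unit => L (n : A))}}.ncard : ℝ) ≤ (((Finset.Icc 1 X).filter fun n : ℕ =>
            Pool.Agent.Y916.Om.BadW δ δ ((k + 1) * δ) w' (fun _ : Unit => L (n : A))).card : ℝ) := by
        rw [← Set.ncard_coe_finset]
        apply Nat.cast_le.2
        apply Set.ncard_le_ncard
        · rintro n ⟨hn1, hn2, hn3⟩
          rw [Finset.mem_coe, Finset.mem_filter, Finset.mem_Icc]
          exact ⟨⟨hn1, hn2⟩, hn3⟩
        · exact Finset.finite_toSet _
      refine (h2.trans h1).trans ?_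
      push_cast
      refine mul_le_mul_of_nonneg_left (Real.rpow_le_rpow_of_exponent_le hX1 ?_) (by positivity)
      have := one_div_le_one_div_of_le hE0 hEp
      linarith) k δ (Fin q) w (by rw [Fintype.card_fin]) (le_of_eq (by ring))
  refine (h p (Nat.cast_nonneg _) δ _ hdec fun t σ ht => Pool.Agent.R351.GD.BadW.reindex σ ht).mono fun t ht => ?_
  obtain ⟨K, hK, hKd, P, hP, hP0, hne⟩ := ht
  exact Pool.Agent.R351.GD.badW_of w _ K hK hKd P hP hP0 hne

/-- **The large coprime factors of almost all integers.** There is a function `C` with the following properties.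

(1) For all `k`, `q`, all primes `p`, all Iwasawa logarithms `L` on fields `A ⊇ ℚ_p`, all degrees `δ`, all `w_1, …, w_q` in `A`
and all `y, N ≥ 1`: for all integers `m ≤ N` but at most `C(k,q) p (δ + 2)^C(k,q) y^(-1/(δ + 2)^C(k,q)) N`, there are NO `k`
pairwise coprime divisors `t_1, …, t_k ≥ y` of `m` such that there is a nontrivial relation of degree at most `δ` over a number
field of degree at most `δ` between `w_1, …, w_q` and `L(t_1), …, L(t_k)`.

(2) For every integral polynomial `f ≠ 0` and `k`, `q` there is `C'` such that for all `p`, `A`, `L`, `δ`, `w` and `y, N ≥ 1`,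
for all integers `m ≤ N` but at most `C' p (δ + 2)^C(k,q) y^(-1/(δ + 2)^C(k,q)) N`, the same is true for the `k`-tuples of
distinct prime factors `t_i` of `f(m)` with `y ≤ t_i ≤ N^(1/k)`.

(3) Let `L_p` be Iwasawa logarithms on fields `A_p ⊇ ℚ_p` for all primes `p`, and let `w_p` be any sequences in `A_p`. For
every function `ψ` which tends to infinity there is a function `K` which tends to infinity such that for almost all `m`, for
all `k, q, p ≤ K(m)`, all `δ` and all pairwise coprime divisors `t_1, …, t_k` of `m` with `t_i ≥ ψ(m)` and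
`t_i ≥ 2^((δ + 2)^C(k,q))` there is no such relation of degree `δ` between the first `q` numbers `w_p` and `L_p(t_1), …,
L_p(t_k)`. -/
theorem result : ∃ C : ℕ → ℕ → ℕ,
    (∀ (k q p : ℕ) [Fact p.Prime] (A : Type) [NormedField A] [NormedAlgebra ℚ_[p] A] [CharZero A] (L : A → A),
      IsIwasawaLog p A L → ∀ (δ : ℕ) (w : Fin q → A) (y N : ℕ), 1 ≤ y → 1 ≤ N →
        ({m : ℕ | 1 ≤ m ∧ m ≤ N ∧ ∃ t : Fin k → ℕ, (∀ i, t i ∣ m ∧ y ≤ t i) ∧
          (∀ i j, i ≠ j → Nat.Coprime (t i) (t j)) ∧ HasRelation δ w (fun i => L ((t i : ℕ) : A))}.ncard : ℝ) ≤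
          C k q * p * ((δ : ℝ) + 2) ^ C k q * (y : ℝ) ^ (-(1 / ((δ : ℝ) + 2) ^ C k q)) * N) ∧
    (∀ f : Polynomial ℤ, f ≠ 0 → ∀ k q : ℕ, ∃ C' : ℝ, ∀ (p : ℕ) [Fact p.Prime] (A : Type) [NormedField A]
      [NormedAlgebra ℚ_[p] A] [CharZero A] (L : A → A), IsIwasawaLog p A L → ∀ (δ : ℕ) (w : Fin q → A) (y N : ℕ),
      1 ≤ y → 1 ≤ N →
        ({m : ℕ | 1 ≤ m ∧ m ≤ N ∧ ∃ t : Fin k → ℕ, Function.Injective t ∧
          (∀ i, (t i).Prime ∧ (t i : ℤ) ∣ f.eval (m : ℤ) ∧ y ≤ t i ∧ t i ^ k ≤ N) ∧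
          HasRelation δ w (fun i => L ((t i : ℕ) : A))}.ncard : ℝ) ≤
          C' * p * ((δ : ℝ) + 2) ^ C k q * (y : ℝ) ^ (-(1 / ((δ : ℝ) + 2) ^ C k q)) * N) ∧
    (∀ (A : Nat.Primes → Type) [∀ p, NormedField (A p)] [∀ p : Nat.Primes, NormedAlgebra ℚ_[(p : ℕ)] (A p)]
      [∀ p, CharZero (A p)] (L : (p : Nat.Primes) → A p → A p), (∀ p : Nat.Primes, IsIwasawaLog (p : ℕ) (A p) (L p)) →
      ∀ (w : (p : Nat.Primes) → ℕ → A p) (ψ : ℕ → ℕ), Tendsto ψ atTop atTop →
      ∃ K : ℕ → ℕ, Tendsto K atTop atTop ∧ AlmostAll (fun m => ∀ k ≤ K m, ∀ q ≤ K m, ∀ p : Nat.Primes, (p : ℕ) ≤ K m →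
        ∀ (δ : ℕ) (t : Fin k → ℕ), (∀ i, t i ∣ m ∧ ψ m ≤ t i ∧ 2 ^ ((δ + 2) ^ C k q) ≤ t i) →
          (∀ i j, i ≠ j → Nat.Coprime (t i) (t j)) →
          ¬ HasRelation δ (fun j : Fin q => w p j) (fun i => L p ((t i : ℕ) : A p)))) := by
  choose C hC1 hC using law_padic
  refine ⟨fun k q => 3 * C k q, ?_, ?_, ?_⟩
  · intro k q p _ A _ _ _ L hL δ w y N hy _
    have hδ : (1 : ℝ) ≤ (δ : ℝ) + 2 := by linarith [(Nat.cast_nonneg δ : (0 : ℝ) ≤ δ)]
    have h1 := hC k q p A L hL δ w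
    have h2 := Pool.Agent.S821.Split.Law.mono_const h1 (c' := 1 / ((δ : ℝ) + 2) ^ (3 * C k q))
      (C' := ((3 * C k q : ℕ) : ℝ) * p * ((δ : ℝ) + 2) ^ (3 * C k q))
      (one_div_le_one_div_of_le (by positivity) (pow_le_pow_right₀ hδ (by omega)))
      (mul_le_mul (mul_le_mul_of_nonneg_right (by exact_mod_cast (by omega : C k q ≤ 3 * C k q)) (Nat.cast_nonneg _))
        (pow_le_pow_right₀ hδ (by omega)) (by positivity) (by positivity)) (by positivity)
    exact h2.nat hy
  · intro f hf k q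
    refine ⟨2 * C k q * ((max 1 f.natDegree : ℕ) : ℝ) ^ k + ((f.leadingCoeff.natAbs + 1 : ℕ) : ℝ),
      fun p hp A _ _ _ L hL δ w y N hy hN => ?_⟩
    have hδ : (1 : ℝ) ≤ (δ : ℝ) + 2 := by linarith [(Nat.cast_nonneg δ : (0 : ℝ) ≤ δ)]
    have hp1 : (1 : ℝ) ≤ p := by exact_mod_cast hp.out.one_lt.le
    have h1 := hC k q p A L hL δ w
    have h2 := Pool.Agent.S821.Split.Law.poly_pow (a := C k q * p) (by positivity) h1 f hf hy hN
    refine h2.trans ?_
    have hy1 : (1 : ℝ) ≤ y := by exact_mod_cast hy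
    have h3 : (y : ℝ) ^ (-(1 / ((δ : ℝ) + 2) ^ C k q)) ≤ (y : ℝ) ^ (-(1 / ((δ : ℝ) + 2) ^ (3 * C k q))) :=
      Real.rpow_le_rpow_of_exponent_le hy1 (neg_le_neg (one_div_le_one_div_of_le (by positivity)
        (pow_le_pow_right₀ hδ (by omega))))
    have h4 : ((δ : ℝ) + 2) ^ C k q ≤ ((δ : ℝ) + 2) ^ (3 * C k q) := pow_le_pow_right₀ hδ (by omega)
    have h5 : 2 * (C k q * (p : ℝ)) * ((max 1 f.natDegree : ℕ) : ℝ) ^ k + ((f.leadingCoeff.natAbs + 1 : ℕ) : ℝ) ≤
        (2 * C k q * ((max 1 f.natDegree : ℕ) : ℝ) ^ k + ((f.leadingCoeff.natAbs + 1 : ℕ) : ℝ)) * p := by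
      have h6 : (0 : ℝ) ≤ ((f.leadingCoeff.natAbs + 1 : ℕ) : ℝ) := Nat.cast_nonneg _
      nlinarith
    exact mul_le_mul_of_nonneg_right (mul_le_mul (mul_le_mul h5 h4 (by positivity) (by positivity)) h3
      (by positivity) (by positivity)) (Nat.cast_nonneg _)
  · intro A _ _ _ L hL w ψ hψ
    obtain ⟨s, hs⟩ : ∃ s : ℕ → Finset Nat.Primes, ∀ K p, p ∈ s K ↔ (p : ℕ) ≤ K :=
      ⟨fun K => Finset.subtype Nat.Prime (Finset.range (K + 1)), fun K p =>
        (Finset.mem_subtype).trans (by rw [Finset.mem_range]; exact Nat.lt_succ_iff)⟩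
    obtain ⟨K, hK, h⟩ := Pool.Agent.S821.Split.growth_fin (ι := (ℕ × ℕ) × Nat.Primes)
      (fun K => (Finset.range (K + 1) ×ˢ Finset.range (K + 1)) ×ˢ s K)
      (fun i j hij => Finset.product_subset_product (Finset.product_subset_product
        (Finset.range_mono (by omega)) (Finset.range_mono (by omega)))
        (fun p hp => (hs j p).2 (((hs i p).1 hp).trans hij)))
      (fun a m => ∀ (δ : ℕ) (t : Fin a.1.1 → ℕ), (∀ i, t i ∣ m ∧ ψ m ≤ t i ∧ 2 ^ ((δ + 2) ^ (3 * C a.1.1 a.1.2)) ≤ t i) →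
          (∀ i j, i ≠ j → Nat.Coprime (t i) (t j)) →
          ¬ HasRelation δ (fun j : Fin a.1.2 => w a.2 j) (fun i => L a.2 ((t i : ℕ) : A a.2)))
      (fun a => Pool.Agent.S821.Split.growing (hC1 _ _) (a := C a.1.1 a.1.2 * (a.2 : ℕ)) (by positivity)
        (fun δ t => HasRelation δ (fun j : Fin a.1.2 => w a.2 j) (fun i => L a.2 ((t i : ℕ) : A a.2)))
        (fun δ => hC a.1.1 a.1.2 (a.2 : ℕ) (A a.2) (L a.2) (hL a.2) δ _) ψ hψ)
    refine ⟨K, hK, Pool.Agent.N826.IT.Orb.almostAll_mono h fun m hm k hk q hq p hp => ?_⟩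
    exact hm ((k, q), p) (by
      rw [Finset.mem_product, Finset.mem_product]
      exact ⟨⟨Finset.mem_range.2 (Nat.lt_succ_of_le hk), Finset.mem_range.2 (Nat.lt_succ_of_le hq)⟩,
        (hs (K m) p).2 hp⟩)

end Pool.Agent.Results.MP_c50dba_nt.CoprimeFactors
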