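import Pool.Agent.W254.PA.App

/-!
# Relations linear in `p`-adic logarithms whose coefficients are polynomials in arbitrary numbers

Let `L` be the Iwasawa logarithm on the algebraic closure of `ℚ_p`, let `LogForms` be the space of all
linear combinations, with algebraic coefficients, of `1` and `p`-adic logarithms of algebraic
numbers, and let `t_1, …, t_n` be ARBITRARY elements of the algebraic closure of `ℚ_p` (for example
`p`-adic logarithms, or values of the `p`-adic exponential function; nothing is assumed about them).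
Fix a degree bound `D`. All but at most `(4 D)^n - 2^n` members (`4 D - 2` for `n = 1 ≤ D`) of any
family of linear forms in `p`-adic logarithms which are linearly independent over `ℚ̄` are linearly
independent over the space of the values at `t` of the polynomials of degree at most `D` in each
variable; one member (for example `1`) can be prescribed to be not exceptional. Hence the relations
of degree at most `D` in `t_1, …, t_n` which are linear in `p`-adic logarithms of algebraic numbers,
linearly independent over `ℚ`, are trivial as soon as none of at most `(4 D)^n - 2^n` exceptional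
logarithms occurs in them; and `m` linear forms in logarithms which, with `1`, are linearly
independent over `ℚ̄` are the values at a point of rational functions of degree at most `D` only if
`m ≤ (4 D)^n - 2^n`. If `n = 1` and `t` is itself a `p`-adic logarithm, then there are at most
`max 1 (4 D - 4)` exceptional logarithms.

Assembled from the unused library theorems `Pool.Agent.W254.Ab.gen_relations` and
`Pool.Agent.W254.PA.fixed_logP` (the hyperplane case of the `p`-adic linear subgroup theorem, and a
doubling inequality for the spaces of polynomials of degree at most `D` at a point).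
-/

set_option autoImplicit false

namespace Pool.Agent.Results.MP_c50dba_nt.PolynomialCoefficients

open MvPolynomial

/-- `L` is the Iwasawa logarithm on the algebraic closure of `ℚ_p`. -/
structure IsIwasawaLog (p : ℕ) [Fact p.Prime] (L : PadicAlgCl p → PadicAlgCl p) : Prop where
  mul : ∀ x y : PadicAlgCl p, x ≠ 0 → y ≠ 0 → L (x * y) = L x + L y
  prime : L ((p : ℕ) : PadicAlgCl p) = 0
  ser : ∀ z : PadicAlgCl p, ‖z‖ < 1 →
    HasSum (fun n : ℕ => (-1 : PadicAlgCl p) ^ n * z ^ (n + 1) / ((n : PadicAlgCl p) + 1))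
      (L (1 + z))

variable {p : ℕ} [Fact p.Prime]

/-- The linear combinations, with algebraic coefficients, of `1` and `p`-adic logarithms of algebraic
numbers. -/
noncomputable def LogForms (L : PadicAlgCl p → PadicAlgCl p) :
    Submodule (algebraicClosure ℚ (PadicAlgCl p)) (PadicAlgCl p) :=
  Submodule.span (algebraicClosure ℚ (PadicAlgCl p))
    ({1} ∪ {z : PadicAlgCl p | ∃ α : PadicAlgCl p, α ≠ 0 ∧ IsAlgebraic ℚ α ∧ z = L α})

theorem one_mem {L : PadicAlgCl p → PadicAlgCl p} : (1 : PadicAlgCl p) ∈ LogForms L :=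
  Submodule.subset_span (Or.inl rfl)

theorem log_mem {L : PadicAlgCl p → PadicAlgCl p} {α : PadicAlgCl p} (h0 : α ≠ 0)
    (h : IsAlgebraic ℚ α) : L α ∈ LogForms L :=
  Submodule.subset_span (Or.inr ⟨α, h0, h, rfl⟩)

theorem part_one {L : PadicAlgCl p → PadicAlgCl p} (hL : Pool.Agent.W245.PB.IsIwasawaLog p L)
    (n D : ℕ) (t : Fin n → PadicAlgCl p) (ι : Type) (y : ι → PadicAlgCl p)
    (hy : ∀ i, y i ∈ LogForms L)
    (hyi : LinearIndependent (algebraicClosure ℚ (PadicAlgCl p)) y) (i₀ : ι) :
    ∃ E : Finset ι, i₀ ∉ E ∧ E.card ≤ (4 * D) ^ n - 2 ^ n ∧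
      ∀ (s : Finset ι) (P : ι → MvPolynomial (Fin n) (algebraicClosure ℚ (PadicAlgCl p))),
        Disjoint s E → (∀ i ∈ s, ∀ j, (P i).degreeOf j ≤ D) → ∑ i ∈ s, aeval t (P i) * y i = 0 →
        ∀ i ∈ s, aeval t (P i) = 0 := by
  classical
  obtain ⟨E, h0, hc, H⟩ := Pool.Agent.W254.Ab.gen_relations
    (Pool.Agent.W254.PA.hyp_padic hL) t D y hyi hy i₀
  refine ⟨E, h0, hc, fun s P hs hP h => ?_⟩
  let Q : ι →₀ MvPolynomial (Fin n) (algebraicClosure ℚ (PadicAlgCl p)) :=
    Finsupp.onFinset s (fun i => if i ∈ s then P i else 0) (fun i hi => by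
      by_contra hc
      simp [hc] at hi)
  have hQ : ∀ i, Q i = if i ∈ s then P i else 0 := fun i => rfl
  have key := H Q (fun i m hm j => ?_) (fun i hi => ?_) ?_
  · intro i hi
    have := key i
    rwa [hQ i, if_pos hi] at this
  · rw [hQ i] at hm
    split_ifs at hm with hi
    · exact (monomial_le_degreeOf j hm).trans (hP i hi j)
    · simp at hm
  · have hi' : i ∉ s := fun hs' => (Finset.disjoint_left.1 hs hs') hi
    rw [hQ i, if_neg hi', map_zero]
  · rw [Finsupp.onFinset_sum _ (fun i => by simp)]
    rw [← h]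
    refine Finset.sum_congr rfl fun i hi => ?_
    rw [if_pos hi]

theorem mem_box (t : PadicAlgCl p) (D : ℕ) (P : Polynomial (algebraicClosure ℚ (PadicAlgCl p)))
    (hP : P.natDegree ≤ D) :
    Polynomial.aeval t P ∈ Pool.Agent.W254.Ab.boxV (fun _ : Fin 1 => t) (D + 1) := by
  rw [Polynomial.aeval_eq_sum_range' (Nat.lt_succ_of_le hP)]
  refine Submodule.sum_mem _ fun k hk => Submodule.smul_mem _ _ (Submodule.subset_span ?_)
  refine ⟨fun _ => ⟨k, Finset.mem_range.1 hk⟩, ?_⟩
  simp

theorem one_log {L : PadicAlgCl p → PadicAlgCl p} (hL : Pool.Agent.W245.PB.IsIwasawaLog p L)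
    (D : ℕ) (ι : Type) (α : ι → PadicAlgCl p) (hα0 : ∀ i, α i ≠ 0)
    (hα : ∀ i, IsAlgebraic ℚ (α i)) (hli : LinearIndependent ℚ (fun i => L (α i))) (hD : 1 ≤ D)
    (i₀ : ι) :
    ∃ E : Finset ι, i₀ ∉ E ∧ E.card ≤ max 1 (4 * D - 4) ∧
      ∀ (s : Finset ι) (P₀ : Polynomial (algebraicClosure ℚ (PadicAlgCl p)))
        (P : ι → Polynomial (algebraicClosure ℚ (PadicAlgCl p))), Disjoint s E → i₀ ∉ s →
        P₀.natDegree ≤ D → (∀ i ∈ s, (P i).natDegree ≤ D) →
        Polynomial.aeval (L (α i₀)) P₀ +
          ∑ i ∈ s, Polynomial.aeval (L (α i₀)) (P i) * L (α i) = 0 →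
        P₀ = 0 ∧ ∀ i ∈ s, P i = 0 := by
  classical
  have ht0 : L (α i₀) ≠ 0 := hli.ne_zero i₀
  have htr := Pool.Agent.W254.PA.log_transcendentalP hL (hα0 i₀) (hα i₀) ht0
  have ht : AlgebraicIndependent (Pool.Agent.W254.Ab.QA (PadicAlgCl p))
      (fun _ : Fin 1 => L (α i₀)) := Pool.Agent.W254.PA.algInd_oneP htr
  have htr' : Transcendental (algebraicClosure ℚ (PadicAlgCl p)) (L (α i₀)) := by
    have : Algebra.IsAlgebraic ℚ (algebraicClosure ℚ (PadicAlgCl p)) :=
      algebraicClosure.isAlgebraic ℚ (PadicAlgCl p)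
    intro h
    exact htr (h.restrictScalars ℚ)
  let w : Option {i : ι // i ≠ i₀} → PadicAlgCl p := fun o => o.elim 1 (fun i => L (α i))
  have hw : LinearIndependent (Pool.Agent.W254.Ab.QA (PadicAlgCl p))
      (fun o : Option (Option {i : ι // i ≠ i₀}) => (o.elim (L (α i₀)) w : PadicAlgCl p)) := by
    have h1 := Pool.Agent.W254.PA.optP_indep hL α hα0 hα hli
    let sw : Option (Option {i : ι // i ≠ i₀}) → Option ι := fun o =>
      match o with
      | none => some i₀
      | some none => none
      | some (some i) => some i.1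
    have hsw : Function.Injective sw := by
      intro a b h
      rcases a with _ | _ | a <;> rcases b with _ | _ | b
      · rfl
      · simp [sw] at h
      · exact absurd (Option.some.inj h).symm b.2
      · simp [sw] at h
      · rfl
      · simp [sw] at h
      · exact absurd (Option.some.inj h) a.2
      · simp [sw] at h
      · have h2 : a.1 = b.1 := Option.some.inj h
        rw [Subtype.ext h2]
    have h2 := h1.comp sw hsw
    convert h2 using 1
    funext o
    rcases o with _ | _ | o <;> rfl
  obtain ⟨E, hE0, hEc, hE⟩ := Pool.Agent.W254.Ab.fixed_exceptional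
    (Pool.Agent.W254.PA.hyp_padic hL) ht D hD w hw
    (by
      intro o
      cases o with
      | none => exact Pool.Agent.W254.PA.one_memP
      | some i => exact Pool.Agent.W254.PA.log_memP (hα0 _) (hα _))
    (Pool.Agent.W254.PA.log_memP (hα0 _) (hα _)) none rfl
  refine ⟨E.eraseNone.map (Function.Embedding.subtype _), ?_, ?_, ?_⟩
  · intro h
    obtain ⟨i, _, hi⟩ := Finset.mem_map.1 h
    exact i.2 hi
  · rw [Finset.card_map]
    have h1 : E.eraseNone.card ≤ E.card := by
      rw [← Finset.card_map Function.Embedding.some]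
      apply Finset.card_le_card
      intro o ho
      obtain ⟨i, hi, rfl⟩ := Finset.mem_map.mp ho
      exact Finset.mem_eraseNone.mp hi
    refine h1.trans ?_
    obtain ⟨e, rfl⟩ : ∃ e, D = e + 1 := ⟨D - 1, by omega⟩
    have h2 : 2 * (e + 1) - 1 = 2 * e + 1 := by omega
    rw [h2] at hEc
    by_contra hcon
    push Not at hcon
    have h3 : 1 < E.card := lt_of_le_of_lt (le_max_left _ _) hcon
    have h4 : 4 * (e + 1) - 4 < E.card := lt_of_le_of_lt (le_max_right _ _) hcon
    have h5 : 4 * e + 1 ≤ E.card := by omega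
    rcases Nat.eq_zero_or_pos e with he | he
    · subst he
      norm_num at hEc
      omega
    · have h6 : (4 * e + 1) * (e + 1) ≤ E.card * (e + 1) := Nat.mul_le_mul_right _ h5
      nlinarith
  · intro s P₀ P hs hi₀ hP₀ hP h
    let g : Option {i : ι // i ≠ i₀} → PadicAlgCl p := fun o =>
      o.elim (Polynomial.aeval (L (α i₀)) P₀)
        (fun i => if (i : ι) ∈ s then Polynomial.aeval (L (α i₀)) (P i) else 0)
    let S : Finset (Option {i : ι // i ≠ i₀}) := Finset.insertNone (s.subtype (fun i => i ≠ i₀))
    let f : Option {i : ι // i ≠ i₀} →₀ PadicAlgCl p := Finsupp.onFinset S g (by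
      intro o ho
      cases o with
      | none => simp [S]
      | some i =>
        have : (i : ι) ∈ s := by
          by_contra hc
          apply ho
          simp [g, hc]
        simpa [S] using this)
    have hf : ∀ o, f o = g o := fun o => rfl
    have key := hE f ?_ ?_ ?_
    · have hz : ∀ o, g o = 0 := fun o => by rw [← hf, key]; rfl
      have hinj : ∀ Q : Polynomial (algebraicClosure ℚ (PadicAlgCl p)),
          Polynomial.aeval (L (α i₀)) Q = 0 → Q = 0 := fun Q hQ => by
        by_contra hc
        exact htr' ⟨Q, hc, hQ⟩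
      refine ⟨hinj _ (hz none), fun i hi => hinj _ ?_⟩
      have hne : i ≠ i₀ := fun hc => hi₀ (hc ▸ hi)
      have h3 := hz (some ⟨i, hne⟩)
      simpa [g, hi] using h3
    · intro o
      rw [hf]
      cases o with
      | none => exact mem_box _ _ _ hP₀
      | some i =>
        change (if (i : ι) ∈ s then Polynomial.aeval (L (α i₀)) (P i) else 0) ∈ _
        split_ifs with hi
        · exact mem_box _ _ _ (hP _ hi)
        · exact Submodule.zero_mem _
    · rw [Finsupp.onFinset_sum _ (fun o => by simp)]
      rw [Finset.sum_insertNone]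
      change Polynomial.aeval (L (α i₀)) P₀ * 1 + ∑ i ∈ s.subtype (fun i => i ≠ i₀),
        (if (i : ι) ∈ s then Polynomial.aeval (L (α i₀)) (P i) else 0) * L (α i) = 0
      rw [mul_one]
      refine Eq.trans ?_ h
      congr 1
      rw [Finset.sum_subtype_of_mem (p := fun i => i ≠ i₀)
        (fun i => (if i ∈ s then Polynomial.aeval (L (α i₀)) (P i) else 0) * L (α i))
        (fun i hi hc => hi₀ (hc ▸ hi))]
      refine Finset.sum_congr rfl fun i hi => ?_
      rw [if_pos hi]
    · intro o ho
      rw [hf]
      cases o with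
      | none => exact absurd ho hE0
      | some i =>
        change (if (i : ι) ∈ s then Polynomial.aeval (L (α i₀)) (P i) else 0) = 0
        rw [if_neg]
        intro hi
        refine (Finset.disjoint_left.1 hs hi) (Finset.mem_map.2 ⟨i, ?_, rfl⟩)
        exact Finset.mem_eraseNone.2 ho

/-- Let `t` be any `n`-tuple of elements of the algebraic closure of `ℚ_p`. (1) Linear forms in
`p`-adic logarithms, linearly independent over `ℚ̄`. (2) `p`-adic logarithms of algebraic numbers,
linearly independent over `ℚ`. (3) Linear forms in `p`-adic logarithms which are values of rational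
functions at `t`. (4) The coefficients are polynomials in one `p`-adic logarithm. -/
theorem result (p : ℕ) [Fact p.Prime] (L : PadicAlgCl p → PadicAlgCl p) (hL : IsIwasawaLog p L)
    (D : ℕ) :
    (∀ (n : ℕ) (t : Fin n → PadicAlgCl p) (ι : Type) (y : ι → PadicAlgCl p),
      (∀ i, y i ∈ LogForms L) → LinearIndependent (algebraicClosure ℚ (PadicAlgCl p)) y →
      ∀ i₀ : ι, ∃ E : Finset ι, i₀ ∉ E ∧ E.card ≤ (4 * D) ^ n - 2 ^ n ∧
        ∀ (s : Finset ι) (P : ι → MvPolynomial (Fin n) (algebraicClosure ℚ (PadicAlgCl p))),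
          Disjoint s E → (∀ i ∈ s, ∀ j, (P i).degreeOf j ≤ D) →
          ∑ i ∈ s, aeval t (P i) * y i = 0 → ∀ i ∈ s, aeval t (P i) = 0) ∧
    (∀ (n : ℕ) (t : Fin n → PadicAlgCl p) (ι : Type) (α : ι → PadicAlgCl p),
      (∀ i, α i ≠ 0) → (∀ i, IsAlgebraic ℚ (α i)) → LinearIndependent ℚ (fun i => L (α i)) →
      ∃ E : Finset ι, E.card ≤ (4 * D) ^ n - 2 ^ n ∧
        ∀ (s : Finset ι) (P₀ : MvPolynomial (Fin n) (algebraicClosure ℚ (PadicAlgCl p)))
          (P : ι → MvPolynomial (Fin n) (algebraicClosure ℚ (PadicAlgCl p))), Disjoint s E →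
          (∀ j, P₀.degreeOf j ≤ D) → (∀ i ∈ s, ∀ j, (P i).degreeOf j ≤ D) →
          aeval t P₀ + ∑ i ∈ s, aeval t (P i) * L (α i) = 0 →
          aeval t P₀ = 0 ∧ ∀ i ∈ s, aeval t (P i) = 0) ∧
    (∀ (n : ℕ) (t : Fin n → PadicAlgCl p) (m : ℕ) (y : Fin m → PadicAlgCl p),
      (∀ i, y i ∈ LogForms L) →
      LinearIndependent (algebraicClosure ℚ (PadicAlgCl p))
        (fun o : Option (Fin m) => o.elim 1 y) →
      (∀ i, ∃ A B : MvPolynomial (Fin n) (algebraicClosure ℚ (PadicAlgCl p)),
        (∀ j, A.degreeOf j ≤ D) ∧ (∀ j, B.degreeOf j ≤ D) ∧ aeval t B ≠ 0 ∧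
        y i = aeval t A / aeval t B) →
      m ≤ (4 * D) ^ n - 2 ^ n) ∧
    (∀ (ι : Type) (α : ι → PadicAlgCl p), (∀ i, α i ≠ 0) → (∀ i, IsAlgebraic ℚ (α i)) →
      LinearIndependent ℚ (fun i => L (α i)) → 1 ≤ D → ∀ i₀ : ι,
      ∃ E : Finset ι, i₀ ∉ E ∧ E.card ≤ max 1 (4 * D - 4) ∧
        ∀ (s : Finset ι) (P₀ : Polynomial (algebraicClosure ℚ (PadicAlgCl p)))
          (P : ι → Polynomial (algebraicClosure ℚ (PadicAlgCl p))), Disjoint s E → i₀ ∉ s →
          P₀.natDegree ≤ D → (∀ i ∈ s, (P i).natDegree ≤ D) →
          Polynomial.aeval (L (α i₀)) P₀ +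
            ∑ i ∈ s, Polynomial.aeval (L (α i₀)) (P i) * L (α i) = 0 →
          P₀ = 0 ∧ ∀ i ∈ s, P i = 0) := by
  classical
  have hL' : Pool.Agent.W245.PB.IsIwasawaLog p L := ⟨hL.mul, hL.prime, hL.ser⟩
  refine ⟨fun n t ι y hy hyi i₀ => part_one hL' n D t ι y hy hyi i₀, ?_, ?_, ?_⟩
  · intro n t ι α hα0 hα hli
    have hmem : ∀ o : Option ι, (o.elim 1 (fun i => L (α i)) : PadicAlgCl p) ∈ LogForms L := by
      intro o
      cases o with
      | none => exact one_mem
      | some i => exact log_mem (hα0 i) (hα i)
    obtain ⟨E, h0, hc, H⟩ := part_one hL' n D t (Option ι)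
      (fun o => (o.elim 1 (fun i => L (α i)) : PadicAlgCl p)) hmem
      (Pool.Agent.W254.PA.optP_indep hL' α hα0 hα hli) none
    refine ⟨E.eraseNone, ?_, ?_⟩
    · refine le_trans ?_ hc
      rw [← Finset.card_map Function.Embedding.some]
      apply Finset.card_le_card
      intro o ho
      obtain ⟨i, hi, rfl⟩ := Finset.mem_map.mp ho
      exact Finset.mem_eraseNone.mp hi
    · intro s P₀ P hs hP₀ hP h
      have key := H (Finset.insertNone s) (fun o => o.elim P₀ P) ?_ ?_ ?_
      · exact ⟨key none (by simp), fun i hi => key (some i) (by simpa using hi)⟩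
      · rw [Finset.disjoint_left]
        intro o ho hE
        cases o with
        | none => exact h0 hE
        | some i =>
          have h1 : i ∈ s := by simpa using ho
          exact Finset.disjoint_left.1 hs h1 (Finset.mem_eraseNone.2 hE)
      · intro o ho j
        cases o with
        | none => exact hP₀ j
        | some i => exact hP i (by simpa using ho) j
      · rw [Finset.sum_insertNone]
        simpa using h
  · intro n t m y hy hyi hR
    have hmem : ∀ o : Option (Fin m), (o.elim 1 y : PadicAlgCl p) ∈ LogForms L := by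
      intro o
      cases o with
      | none => exact one_mem
      | some i => exact hy i
    obtain ⟨E, h0, hc, H⟩ := part_one hL' n D t (Option (Fin m)) (fun o => o.elim 1 y) hmem hyi
      none
    have hall : ∀ i : Fin m, some i ∈ E := by
      intro i
      by_contra hi
      obtain ⟨A, B, hA, hB, hB0, hyAB⟩ := hR i
      apply hB0
      have key := H {none, some i} (fun o => o.elim (-A) (fun _ => B)) ?_ ?_ ?_ (some i) (by simp)
      · simpa using key
      · rw [Finset.disjoint_left]
        intro o ho hE
        rcases Finset.mem_insert.1 ho with rfl | ho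
        · exact h0 hE
        · rw [Finset.mem_singleton] at ho
          rw [ho] at hE
          exact hi hE
      · intro o ho j
        cases o with
        | none =>
          have : (-A).degreeOf j = A.degreeOf j := degreeOf_neg j A
          simpa [this] using hA j
        | some i' => simpa using hB j
      · rw [Finset.sum_pair (by simp)]
        simp only [Option.elim_none, Option.elim_some, map_neg, mul_one]
        rw [hyAB]
        field_simp
        ring
    calc m = (Finset.univ.map (Function.Embedding.some : Fin m ↪ Option (Fin m))).card := by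
          rw [Finset.card_map, Finset.card_univ, Fintype.card_fin]
      _ ≤ E.card := by
          apply Finset.card_le_card
          intro o ho
          obtain ⟨i, _, rfl⟩ := Finset.mem_map.mp ho
          exact hall i
      _ ≤ _ := hc
  · intro ι α hα0 hα hli hD i₀
    exact one_log hL' D ι α hα0 hα hli hD i₀

end Pool.Agent.Results.MP_c50dba_nt.PolynomialCoefficients
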