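import Mathlib
import Pool.Agent.U945.AL.PQuo

/-!
# Quotients of `p`-adic logarithms at the algebraic points of a line

The conjecture says in particular that four `p`-adic logarithms of algebraic numbers satisfy
`L(α) L(y) = L(β) L(x)` only if this is a consequence of linear relations with rational coefficients.
For given `α`, `β` with linearly independent logarithms, the `p`-adic six exponentials theorem says that
the possible `x` form a group of rank at most two, up to roots of unity and rational powers of `p`.  We
show that the pairs `(x, y)` are in general position: there is an absolute constant `C`, independent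
also of the prime number `p`, such that no line `a x + b y = 1` (`a`, `b` any elements different from
zero of the algebraic closure of `ℚ_p`) contains more than `C` of them.

1. Let `s` be any element of the algebraic closure of `ℚ_p` which is not a rational number (for instance
   `s = L(β) / L(α)`).  On each line `a x + b y = 1` there are at most `C` points `(x, y)` with nonzero
   algebraic coordinates such that `L(y) = s L(x)`.  So the function `L(y) / L(x)` takes every
   irrational value at most `C` times at the algebraic points of a line, if the points with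
   `L(x) = L(y) = 0` are counted with every value (these are points with coordinates in the group
   generated by the roots of unity and the rational powers of `p`).

2. The same for linear forms in `p`-adic logarithms.  Let `LogForms` be the space of the linear
   combinations, with algebraic coefficients, of `1` and of values of `L` at algebraic numbers.  Let `s`,
   `t` be transcendental numbers, and let `V` be a space of dimension at most `k` over the field of
   algebraic numbers.  On each line `a x + b y = 1` there are at most `C ^ (k + 1)` points with nonzero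
   algebraic coordinates such that `s L(x)` and `t L(y)` are in `LogForms + V`.
-/

set_option autoImplicit false

namespace Pool.Agent.Results.MP_c50dba_nt.QuotientsOnLines

/-- `L` is the Iwasawa `p`-adic logarithm on the algebraic closure of `ℚ_p`. -/
def IsIwasawaLog (p : ℕ) [Fact p.Prime] (L : PadicAlgCl p → PadicAlgCl p) : Prop :=
  (∀ x y : PadicAlgCl p, x ≠ 0 → y ≠ 0 → L (x * y) = L x + L y) ∧
  L ((p : ℕ) : PadicAlgCl p) = 0 ∧
  ∀ z : PadicAlgCl p, ‖z‖ < 1 →
    HasSum (fun n : ℕ => (-1 : PadicAlgCl p) ^ n * z ^ (n + 1) / ((n : PadicAlgCl p) + 1))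
      (L (1 + z))

/-- The linear combinations, with algebraic coefficients, of `1` and of the values of `L` at nonzero
algebraic numbers. -/
noncomputable def LogForms (p : ℕ) [Fact p.Prime] (L : PadicAlgCl p → PadicAlgCl p) :
    Submodule (algebraicClosure ℚ (PadicAlgCl p)) (PadicAlgCl p) :=
  Submodule.span (algebraicClosure ℚ (PadicAlgCl p))
    ({1} ∪ {z | ∃ α : PadicAlgCl p, α ≠ 0 ∧ IsAlgebraic ℚ α ∧ z = L α})

/-- The points `(x, y)` of the line `a x + b y = 1` with nonzero algebraic coordinates such that
`L(y) = s L(x)`. -/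
def QuotientPoints (p : ℕ) [Fact p.Prime] (L : PadicAlgCl p → PadicAlgCl p)
    (s a b : PadicAlgCl p) : Set (PadicAlgCl p × PadicAlgCl p) :=
  {e | a * e.1 + b * e.2 = 1 ∧ e.1 ≠ 0 ∧ e.2 ≠ 0 ∧ IsAlgebraic ℚ e.1 ∧ IsAlgebraic ℚ e.2 ∧
    L e.2 = s * L e.1}

/-- The points `(x, y)` of the line `a x + b y = 1` with nonzero algebraic coordinates such that
`s L(x)` and `t L(y)` are in `LogForms + V`. -/
def StrongPoints (p : ℕ) [Fact p.Prime] (L : PadicAlgCl p → PadicAlgCl p) (s t : PadicAlgCl p)
    (V : Submodule (algebraicClosure ℚ (PadicAlgCl p)) (PadicAlgCl p)) (a b : PadicAlgCl p) :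
    Set (PadicAlgCl p × PadicAlgCl p) :=
  {e | a * e.1 + b * e.2 = 1 ∧ e.1 ≠ 0 ∧ e.2 ≠ 0 ∧ IsAlgebraic ℚ e.1 ∧ IsAlgebraic ℚ e.2 ∧
    s * L e.1 ∈ LogForms p L ⊔ V ∧ t * L e.2 ∈ LogForms p L ⊔ V}

/-- **Quotients of `p`-adic logarithms at the algebraic points of a line.** -/
theorem result : ∃ C : ℕ, ∀ (p : ℕ) [Fact p.Prime] (L : PadicAlgCl p → PadicAlgCl p),
    IsIwasawaLog p L →
    (∀ s : PadicAlgCl p, (∀ q : ℚ, s ≠ q) → ∀ a b : PadicAlgCl p, a ≠ 0 → b ≠ 0 →
      (QuotientPoints p L s a b).Finite ∧ (QuotientPoints p L s a b).ncard ≤ C) ∧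
    (∀ (k : ℕ) (s t : PadicAlgCl p), Transcendental ℚ s → Transcendental ℚ t →
      ∀ V : Submodule (algebraicClosure ℚ (PadicAlgCl p)) (PadicAlgCl p),
      FiniteDimensional (algebraicClosure ℚ (PadicAlgCl p)) V →
      Module.finrank (algebraicClosure ℚ (PadicAlgCl p)) V ≤ k →
      ∀ a b : PadicAlgCl p, a ≠ 0 → b ≠ 0 →
      (StrongPoints p L s t V a b).Finite ∧ (StrongPoints p L s t V a b).ncard ≤ C ^ (k + 1)) := by
  obtain ⟨C, hC⟩ := Pool.Agent.U945.AL.pmain
  refine ⟨C, fun p _ L hL => ?_⟩
  have hL' : Pool.Agent.W245.PB.IsIwasawaLog p L := ⟨hL.1, hL.2.1, hL.2.2⟩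
  obtain ⟨h1, h2⟩ := hC p L hL'
  refine ⟨fun s hs a b ha hb => ?_, fun k s t hs ht V hV hk a b ha hb => ?_⟩
  · exact Pool.Agent.U945.AL.bounded_set (fun E hE => h1 s hs a b ha hb E hE)
  · refine Pool.Agent.U945.AL.bounded_set
      (fun E hE => h2 k s t hs ht V hV hk a b ha hb E (fun e he => ?_))
    obtain ⟨h3, h4, h5, h6, h7, h8, h9⟩ := hE e he
    exact ⟨h3, ⟨h4, h6, h8⟩, ⟨h5, h7, h9⟩⟩

end Pool.Agent.Results.MP_c50dba_nt.QuotientsOnLines
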