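import Pool.Agent.U10.Dg.Pd

/-!
# The rank of a point with `p`-adic logarithmic coordinates is bounded by the dimension and the degree of the variety

Let `C` be the algebraic closure of `ℚ_p`, and let `V` be an irreducible variety in affine `n`-space,
defined over the field `ℚ̄` of the algebraic numbers, of dimension `k` and of degree (at most) `δ`.  Let
`l = (l_1, …, l_n)` be a point of `V` over `C` whose coordinates are `p`-adic logarithms of algebraic
numbers, and let `r` be the maximal number of coordinates which are linearly independent over `ℚ`.  The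
`p`-adic conjecture of Schanuel says that `r ≤ k`.  We prove

`(r + 3) ^ 2 ≤ 4 (k + 1) δ + 2 k (k + 1) + 5`

for ALL varieties `V`, in any dimension, and for all primes `p` with the same constants.  So `r` is
bounded in terms of `k` and `δ`; the bound grows like `2 √((k + 1) δ)` with the degree, and like `√2 k`
with the dimension.  In other words: the algebraic relations between `n` `p`-adic logarithms which are
linearly independent over `ℚ`, and which generate a field of transcendence degree `k`, define a variety of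
degree at least `(n ^ 2 / 4 - k (k + 1) / 2) / (k + 1)`.

More generally let `l_i` be linear forms in `1` and `p`-adic logarithms of algebraic numbers with
algebraic coefficients, and let `v` be the dimension over `ℚ̄` of the space spanned by `1, l_1, …, l_n`
(by the theorem of Brumer `v = r + 1` for logarithms).  Then for all `m ≥ 0`

`v + m ⌊v ^ 2 / 4⌋ ≤ δ (m + k choose k) + (m + k choose m + 1)`.

The third part is an explicit version for parametrized points: if the logarithms `l_i` are quotients
`P_i(t) / Q(t)` of polynomials over `ℚ̄` of degree at most `D` with a common denominator, in ARBITRARY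
elements `t_1, …, t_s` of `C`, then `(r + 3) ^ 2 ≤ 4 (2 D + s choose s) + 5`.

Proof.  Let `S` be the space spanned by `1, l_1, …, l_n`.  The hyperplane case of the `p`-adic linear
subgroup theorem gives `dim S ^ (m + 1) ≥ dim S ^ m + ⌊v ^ 2 / 4⌋` (starting library,
`Pool.Agent.W254.PA`, `Pool.Agent.Y787.GL`).  The dimension of `S ^ m` is at most the value `H(m)` of the
Hilbert function of `V`, and `H(m + 1) ≤ δ (m + k choose k) + (m + k choose m + 1)` by the bound of
Chardin, which is proved in `Pool.Agent.U10.Dg` through a linear Noether normalization and norms.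
The complex analogue is our `MP_60829e_nt.RankDimensionDegree`; for curves (`k = 1`) there is the
starting result `FieldDegrees`.
-/

set_option autoImplicit false

namespace Pool.Agent.Results.MP_c50dba_nt.RankDimensionDegree

open MvPolynomial Module

/-- `L` is the Iwasawa logarithm on the algebraic closure of `ℚ_p`. -/
structure IsIwasawaLog (p : ℕ) [Fact p.Prime] (L : PadicAlgCl p → PadicAlgCl p) : Prop where
  mul : ∀ x y : PadicAlgCl p, x ≠ 0 → y ≠ 0 → L (x * y) = L x + L y
  prime : L ((p : ℕ) : PadicAlgCl p) = 0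
  ser : ∀ z : PadicAlgCl p, ‖z‖ < 1 →
    HasSum (fun n : ℕ => (-1 : PadicAlgCl p) ^ n * z ^ (n + 1) / ((n : PadicAlgCl p) + 1))
      (L (1 + z))

/-- The field `ℚ̄` of algebraic numbers, in the algebraic closure of `ℚ_p`. -/
noncomputable abbrev QBar (p : ℕ) [Fact p.Prime] : IntermediateField ℚ (PadicAlgCl p) :=
  algebraicClosure ℚ (PadicAlgCl p)

variable {p : ℕ} [Fact p.Prime]

/-- Linear forms in `1` and `p`-adic logarithms of algebraic numbers, with algebraic coefficients. -/
noncomputable def LogForms (L : PadicAlgCl p → PadicAlgCl p) :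
    Submodule (QBar p) (PadicAlgCl p) :=
  Submodule.span (QBar p) ({1} ∪ {z | ∃ α : PadicAlgCl p, α ≠ 0 ∧ IsAlgebraic ℚ α ∧ z = L α})

/-- The degree of a variety of dimension `k` with the coordinate functions `x_1, …, x_n` in its function
field `F` is at most `δ`: the dominant linear projections `y` of the variety to the affine space of
dimension `k` have degree `[F : ℚ̄(y)]` at most `δ`. -/
def DegreeAtMost (p : ℕ) [Fact p.Prime] {F : Type} [Field F] [Algebra (QBar p) F] {n : ℕ} (x : Fin n → F)
    (k δ : ℕ) : Prop :=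
  ∀ y : Fin k → F, (∀ i, y i ∈ Submodule.span (QBar p) (Set.range x)) →
    AlgebraicIndependent (QBar p) y →
    finrank (IntermediateField.adjoin (QBar p) (Set.range y)) F ≤ δ

/-- The point `l` is on an irreducible variety `V` over `ℚ̄` of dimension `k` and degree at most `δ` in
affine `n`-space.  The variety is given by its function field `F` and the coordinate functions
`x_1, …, x_n`, which generate `F`; its ideal consists of the polynomials `P` with `P(x) = 0`, and its
dimension is the transcendence degree of `F`. -/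
def OnVariety (k δ : ℕ) {n : ℕ} (l : Fin n → PadicAlgCl p) : Prop :=
  ∃ (F : Type) (_ : Field F) (_ : Algebra (QBar p) F) (x : Fin n → F),
    IntermediateField.adjoin (QBar p) (Set.range x) = ⊤ ∧ Algebra.trdeg (QBar p) F = k ∧
      DegreeAtMost p x k δ ∧ ∀ P : MvPolynomial (Fin n) (QBar p), aeval x P = 0 → aeval l P = 0

/-- The rank over `ℚ` of the numbers `l_i`. -/
noncomputable def rank {n : ℕ} (l : Fin n → PadicAlgCl p) : ℕ :=
  finrank ℚ (Submodule.span ℚ (Set.range l))

/-- The dimension over `ℚ̄` of the space spanned by `1` and the `l_i`. -/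
noncomputable def dimOne {n : ℕ} (l : Fin n → PadicAlgCl p) : ℕ :=
  finrank (QBar p) (Submodule.span (QBar p) ({1} ∪ Set.range l))

/-- The numbers `l_i` are quotients `P_i(t) / Q(t)` of polynomials over `ℚ̄` of degree at most `D` in
`s` elements `t_1, …, t_s` of the algebraic closure of `ℚ_p`. -/
def Quotients (s D : ℕ) {n : ℕ} (l : Fin n → PadicAlgCl p) : Prop :=
  ∃ (t : Fin s → PadicAlgCl p) (Q : MvPolynomial (Fin s) (QBar p))
    (P : Fin n → MvPolynomial (Fin s) (QBar p)),
    Q.totalDegree ≤ D ∧ aeval t Q ≠ 0 ∧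
      ∀ i, (P i).totalDegree ≤ D ∧ l i = aeval t (P i) / aeval t Q

/-- The numbers `l_i` are `p`-adic logarithms of algebraic numbers. -/
def AreLogs (L : PadicAlgCl p → PadicAlgCl p) {n : ℕ} (l : Fin n → PadicAlgCl p) : Prop :=
  ∀ i, ∃ α : PadicAlgCl p, α ≠ 0 ∧ IsAlgebraic ℚ α ∧ l i = L α

theorem bound {L : PadicAlgCl p → PadicAlgCl p} (hL : Pool.Agent.W245.PB.IsIwasawaLog p L)
    {n k δ : ℕ} {l : Fin n → PadicAlgCl p} (h : OnVariety k δ l)
    (hl : ∀ i, l i ∈ LogForms L) (v : ℕ) (hv : v ≤ dimOne l) (m : ℕ) :
    v + m * (v ^ 2 / 4) ≤ δ * (m + k).choose k + (m + k).choose (m + 1) := by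
  obtain ⟨F, _, _, x, hx, hk, hδ, hV⟩ := h
  have := Pool.Agent.Y787.hypC_padic hL
  exact Pool.Agent.U10.Dg.degree_bound
    (Lt := Pool.Agent.W254.PA.LtE (Pool.Agent.W254.PA.logs L)) x hx hk hδ l hl hV v hv m

/-- **Main result.** -/
theorem result (p : ℕ) [Fact p.Prime] (L : PadicAlgCl p → PadicAlgCl p) (hL : IsIwasawaLog p L)
    (n : ℕ) (l : Fin n → PadicAlgCl p) :
    (∀ k δ, OnVariety k δ l → (∀ i, l i ∈ LogForms L) → ∀ m,
      dimOne l + m * (dimOne l ^ 2 / 4) ≤ δ * (m + k).choose k + (m + k).choose (m + 1)) ∧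
    (∀ k δ, OnVariety k δ l → AreLogs L l →
      (rank l + 3) ^ 2 ≤ 4 * (k + 1) * δ + 2 * k * (k + 1) + 5) ∧
    (∀ s D, Quotients s D l → AreLogs L l → (rank l + 3) ^ 2 ≤ 4 * (2 * D + s).choose s + 5) := by
  have hL' : Pool.Agent.W245.PB.IsIwasawaLog p L := ⟨hL.mul, hL.prime, hL.ser⟩
  have hT := Pool.Agent.Y787.hypC_padic hL'
  refine ⟨?_, ?_, ?_⟩
  · intro k δ h hl m
    exact bound hL' h hl _ le_rfl m
  · intro k δ h hl
    exact Pool.Agent.U10.Dg.square_bound (bound hL' h
      (fun i => Pool.Agent.Y787.log_mem (hl i)) (rank l + 1)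
      (Pool.Agent.U10.Dg.rank_succ_le_padic hL' l hl) 1)
  · rintro s D ⟨t, Q, P, hQ, hQt, hP⟩ hl
    have h1 := Pool.Agent.U10.Dg.growth_low
      (Lt := Pool.Agent.W254.PA.LtE (Pool.Agent.W254.PA.logs L)) l
      (fun i => Pool.Agent.Y787.log_mem (hl i)) (rank l + 1)
      (Pool.Agent.U10.Dg.rank_succ_le_padic hL' l hl) 1
    have h2 := Pool.Agent.U10.Dg.growth_up l t Q hQ hQt P (fun i => (hP i).1)
      (fun i => by rw [(hP i).2, div_mul_cancel₀ _ hQt]) 2
    exact Pool.Agent.U10.Dg.square_bound' (h1.trans h2)

end Pool.Agent.Results.MP_c50dba_nt.RankDimensionDegree
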